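import Pool.Agent.helper17.CH.SpecQ

/-!
# MP_5628fe, row QPS: character sums over the switched sequence
-/

set_option autoImplicit false

namespace Pool.Agent.CH

open Finset ArithmeticFunction MeasureTheory

/-- Abel summation -/
theorem QPS_abel (a : ℕ → ℂ) (f : ℕ → ℝ) (M : ℝ) (hf : ∀ n, 2 ≤ n → 0 ≤ f (n + 1) ∧ f (n + 1) ≤ f n)
    (s : ℕ) (hM : ∀ m ≤ s, ‖∑ n ∈ Ioc 1 m, a n‖ ≤ M) :
    ∀ m, 2 ≤ m → m ≤ s → ‖∑ n ∈ Ioc 1 m, (f n : ℂ) * a n - (f m : ℂ) * ∑ n ∈ Ioc 1 m, a n‖ ≤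
      (f 2 - f m) * M := by
  intro m hm
  induction m, hm using Nat.le_induction with
  | base =>
    intro _
    have : Ioc 1 2 = ({2} : Finset ℕ) := rfl
    rw [this, sum_singleton, sum_singleton]
    simp
  | succ m hm ih =>
    intro hms
    have ih' := ih (by omega)
    have h1 : Ioc 1 (m + 1) = insert (m + 1) (Ioc 1 m) := by
      ext x
      simp only [mem_Ioc, mem_insert]
      omega
    have h2 : m + 1 ∉ Ioc 1 m := by simp
    rw [h1, sum_insert h2, sum_insert h2]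
    have e : (f (m + 1) : ℂ) * a (m + 1) + ∑ n ∈ Ioc 1 m, (f n : ℂ) * a n -
        (f (m + 1) : ℂ) * (a (m + 1) + ∑ n ∈ Ioc 1 m, a n) =
        (∑ n ∈ Ioc 1 m, (f n : ℂ) * a n - (f m : ℂ) * ∑ n ∈ Ioc 1 m, a n) +
          ((f m - f (m + 1) : ℝ) : ℂ) * ∑ n ∈ Ioc 1 m, a n := by
      push_cast
      ring
    rw [e]
    refine (norm_add_le _ _).trans ?_
    rw [norm_mul, Complex.norm_real, Real.norm_of_nonneg (by linarith [(hf m hm).2])]
    have h3 := hM m (by omega)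
    have h4 : (f m - f (m + 1)) * ‖∑ n ∈ Ioc 1 m, a n‖ ≤ (f m - f (m + 1)) * M :=
      mul_le_mul_of_nonneg_left h3 (by linarith [(hf m hm).2])
    have h5 : (f 2 - f (m + 1)) * M = (f 2 - f m) * M + (f m - f (m + 1)) * M := by ring
    rw [h5]
    linarith

/-- removing the weight `log p` -/
theorem QPS_weight (q : ℕ) (χ : DirichletCharacter ℂ q) (M : ℝ) (s : ℕ)
    (hM : ∀ m ≤ s, ‖∑ p ∈ Ioc 0 m with p.Prime, (Real.log p : ℂ) * χ p‖ ≤ M) :
    ‖∑ p ∈ Ioc 0 s with p.Prime, χ p‖ ≤ 2 * M := by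
  have hM0 : 0 ≤ M := (norm_nonneg _).trans (hM 0 (Nat.zero_le _))
  rcases Nat.lt_or_ge s 2 with hs | hs
  · have : (Ioc 0 s).filter Nat.Prime = ∅ := by
      apply filter_eq_empty_iff.2
      intro p hp hpp
      rw [mem_Ioc] at hp
      have := hpp.two_le
      omega
    rw [this, sum_empty, norm_zero]
    linarith
  · set a : ℕ → ℂ := fun n => if n.Prime then (Real.log n : ℂ) * χ n else 0 with ha
    set f : ℕ → ℝ := fun n => 1 / Real.log n with hf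
    have hset : ∀ (m : ℕ) (g : ℕ → ℂ), ∑ p ∈ Ioc 0 m with p.Prime, g p =
        ∑ p ∈ Ioc 1 m, if p.Prime then g p else 0 := by
      intro m g
      rw [sum_filter]
      symm
      apply sum_subset
      · intro x hx
        rw [mem_Ioc] at hx ⊢
        omega
      · intro x hx hx'
        rw [mem_Ioc] at hx hx'
        have : x = 1 := by omega
        rw [this, if_neg Nat.not_prime_one]
    have hM' : ∀ m ≤ s, ‖∑ n ∈ Ioc 1 m, a n‖ ≤ M := by
      intro m hm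
      have := hM m hm
      rw [hset] at this
      exact this
    have hlog : ∀ n : ℕ, 2 ≤ n → 0 < Real.log n := fun n hn =>
      Real.log_pos (by exact_mod_cast hn)
    have hfm : ∀ n, 2 ≤ n → 0 ≤ f (n + 1) ∧ f (n + 1) ≤ f n := by
      intro n hn
      have h1 := hlog n hn
      have h2 := hlog (n + 1) (by omega)
      refine ⟨by rw [hf]; positivity, ?_⟩
      rw [hf]
      apply one_div_le_one_div_of_le h1
      apply Real.log_le_log (by exact_mod_cast (by omega : 0 < n))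
      push_cast
      linarith
    have h1 := QPS_abel a f M hfm s hM' s hs (le_refl s)
    have h2 : ∑ n ∈ Ioc 1 s, (f n : ℂ) * a n = ∑ p ∈ Ioc 0 s with p.Prime, χ p := by
      rw [hset]
      apply sum_congr rfl
      intro n hn
      rw [mem_Ioc] at hn
      rw [ha, hf]
      simp only
      split_ifs
      · have h3 := hlog n hn.1
        have h4 : (Real.log n : ℂ) ≠ 0 := by exact_mod_cast h3.ne'
        rw [← mul_assoc, one_div, Complex.ofReal_inv, inv_mul_cancel₀ h4, one_mul]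
      · rw [mul_zero]
    rw [h2] at h1
    have h3 : ‖(f s : ℂ) * ∑ n ∈ Ioc 1 s, a n‖ ≤ f s * M := by
      rw [norm_mul, Complex.norm_real, Real.norm_of_nonneg]
      · refine mul_le_mul_of_nonneg_left (hM' s (le_refl s)) ?_
        rw [hf]
        have := hlog s hs
        positivity
      · rw [hf]
        have := hlog s hs
        positivity
    have h4 : ‖∑ p ∈ Ioc 0 s with p.Prime, χ p‖ ≤ f 2 * M := by
      have e : ∑ p ∈ Ioc 0 s with p.Prime, χ p = (∑ p ∈ Ioc 0 s with p.Prime, χ p -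
          (f s : ℂ) * ∑ n ∈ Ioc 1 s, a n) + (f s : ℂ) * ∑ n ∈ Ioc 1 s, a n := by ring
      rw [e]
      refine (norm_add_le _ _).trans ?_
      have : f 2 * M = (f 2 - f s) * M + f s * M := by ring
      rw [this]
      exact add_le_add h1 h3
    refine h4.trans ?_
    apply mul_le_mul_of_nonneg_right _ hM0
    rw [hf]
    simp only [Nat.cast_ofNat]
    rw [div_le_iff₀ (Real.log_pos (by norm_num))]
    have := Real.log_two_gt_d9
    linarith

/-- from prime powers to primes -/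
theorem QPS_theta (q : ℕ) (χ : DirichletCharacter ℂ q) (m V : ℕ) (hmV : m ≤ V) (hV : 1 ≤ V) :
    ‖∑ p ∈ Ioc 0 m with p.Prime, (Real.log p : ℂ) * χ p‖ ≤
      ‖∑ j ∈ Ioc 0 m, (vonMangoldt j : ℂ) * χ j‖ + 2 * √(V : ℝ) * Real.log V := by
  have e : ∑ p ∈ Ioc 0 m with p.Prime, (Real.log p : ℂ) * χ p =
      ∑ j ∈ Ioc 0 m, (vonMangoldt j : ℂ) * χ j -
        ∑ j ∈ Ioc 0 m with ¬ j.Prime, (vonMangoldt j : ℂ) * χ j := by
    rw [sum_filter, sum_filter, ← sum_sub_distrib]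
    apply sum_congr rfl
    intro j _
    by_cases hj : j.Prime
    · rw [if_pos hj, if_neg (by simpa using hj), sub_zero, vonMangoldt_apply_prime hj]
    · rw [if_neg hj, if_pos hj, sub_self]
  rw [e]
  refine (norm_sub_le _ _).trans (add_le_add le_rfl ?_)
  have h1 : ‖∑ j ∈ Ioc 0 m with ¬ j.Prime, (vonMangoldt j : ℂ) * χ j‖ ≤
      ∑ j ∈ Ioc 0 m with ¬ j.Prime, vonMangoldt j := by
    refine (norm_sum_le _ _).trans (sum_le_sum fun j _ => ?_)
    rw [norm_mul, Complex.norm_real, Real.norm_of_nonneg vonMangoldt_nonneg]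
    exact mul_le_of_le_one_right vonMangoldt_nonneg (DirichletCharacter.norm_le_one _ _)
  have h2 : ∑ j ∈ Ioc 0 m with ¬ j.Prime, vonMangoldt j ≤
      ∑ j ∈ Ioc 0 V with ¬ j.Prime, vonMangoldt j := by
    apply sum_le_sum_of_subset_of_nonneg
    · apply filter_subset_filter
      exact Ioc_subset_Ioc_right hmV
    · intro j _ _
      exact vonMangoldt_nonneg
  have h3 := Chebyshev.psi_sub_theta_le (x := (V : ℝ)) (by exact_mod_cast hV)
  rw [Chebyshev.psi_sub_theta_eq_sum_not_prime, Nat.floor_natCast] at h3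
  linarith

theorem QPS_logpow (A : ℕ) (c : ℝ) (hc : 0 < c) : ∃ N₀ : ℕ, ∀ N : ℕ, N₀ ≤ N →
    Real.log N ^ A ≤ c * N := by
  have h1 := (isLittleO_log_rpow_rpow_atTop (A : ℝ) (show (0 : ℝ) < 1 by norm_num)).bound hc
  obtain ⟨x₀, h⟩ := Filter.eventually_atTop.1 h1
  refine ⟨⌈max x₀ 1⌉₊, fun N hN => ?_⟩
  have hN' : max x₀ 1 ≤ (N : ℝ) := (Nat.le_ceil _).trans (by exact_mod_cast hN)
  have hx1 : (1 : ℝ) ≤ N := (le_max_right _ _).trans hN'
  have := h N ((le_max_left _ _).trans hN')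
  rw [Real.norm_of_nonneg (Real.rpow_nonneg (Real.log_nonneg hx1) _), Real.rpow_one,
    Real.norm_of_nonneg (by linarith), Real.rpow_natCast] at this
  exact this

theorem QPS_loglarge (c : ℝ) : ∃ N₀ : ℕ, 64 ≤ N₀ ∧ ∀ N : ℕ, N₀ ≤ N → c ≤ Real.log N := by
  have h := (Real.tendsto_log_atTop.comp tendsto_natCast_atTop_atTop).eventually_ge_atTop c
  obtain ⟨N₁, hN₁⟩ := Filter.eventually_atTop.1 h
  exact ⟨max N₁ 64, le_max_right _ _, fun N hN => hN₁ N ((le_max_left _ _).trans hN)⟩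

theorem QPS_log64 (N : ℕ) (h : 64 ≤ N) : Real.log ((64 * N ^ 3 : ℕ) : ℝ) ≤ 4 * Real.log N := by
  have hNR : (64 : ℝ) ≤ N := by exact_mod_cast h
  have h3 : ((64 * N ^ 3 : ℕ) : ℝ) ≤ (N : ℝ) ^ 4 := by
    push_cast
    calc (64 : ℝ) * N ^ 3 ≤ N * N ^ 3 := by gcongr
      _ = (N : ℝ) ^ 4 := by ring
  have hpos : 0 < 64 * N ^ 3 := by positivity
  calc Real.log ((64 * N ^ 3 : ℕ) : ℝ) ≤ Real.log ((N : ℝ) ^ 4) :=
        Real.log_le_log (by exact_mod_cast hpos) h3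
    _ = 4 * Real.log N := by rw [Real.log_pow]; push_cast; rfl

/-- sums over primes at the scale `V` -/
theorem QPS_pr (h : PS_stmt) (A B : ℕ) : ∃ N₀ : ℕ, ∀ N : ℕ, N₀ ≤ N → ∀ q : ℕ, 1 ≤ q →
    (q : ℝ) ≤ Real.log N ^ B → ∀ χ : DirichletCharacter ℂ q, χ ≠ 1 → ∀ V : ℕ,
    (N : ℝ) ^ (3 / 4 : ℝ) ≤ V → V ≤ 64 * N ^ 3 → ∀ s ≤ V,
    ‖∑ p ∈ Ioc 0 s with p.Prime, χ p‖ ≤ V / Real.log N ^ A := by
  obtain ⟨N₁, hN₁⟩ := h (A + 1) (B + 1)
  obtain ⟨N₂, hN₂⟩ := QPS_logpow (8 * A + 16) (1 / 8 ^ 8) (by norm_num)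
  obtain ⟨N₃, h64, hN₃⟩ := QPS_loglarge (4 * 4 ^ B + 2 * (8 * 4 ^ (A + 1) + 1))
  refine ⟨max (N₁ ^ 4) (max N₂ N₃), ?_⟩
  intro N hN q hq1 hqB χ hχ V hVlo hVhi s hs
  have h1N : N₁ ^ 4 ≤ N := (le_max_left _ _).trans hN
  have h2N : N₂ ≤ N := (le_max_left _ _).trans ((le_max_right _ _).trans hN)
  have h3N : N₃ ≤ N := (le_max_right _ _).trans ((le_max_right _ _).trans hN)
  have hN64 : 64 ≤ N := h64.trans h3N
  set L := Real.log N with hL
  have hN0 : (0 : ℝ) < N := by exact_mod_cast (by omega : 0 < N)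
  have hNR : (64 : ℝ) ≤ N := by exact_mod_cast hN64
  have hLbig := hN₃ N h3N
  rw [← hL] at hLbig
  have hpB : (0 : ℝ) < 4 ^ B := by positivity
  have hpA : (0 : ℝ) < 4 ^ (A + 1) := by positivity
  have hL1 : 1 ≤ L := by linarith
  have hL0 : 0 < L := by linarith
  have hV0 : (0 : ℝ) < V := lt_of_lt_of_le (by positivity) hVlo
  have hV1 : 1 ≤ V := by exact_mod_cast (Nat.cast_pos.1 hV0)
  have hV1R : (1 : ℝ) ≤ V := by exact_mod_cast hV1
  -- the auxiliary scale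
  set K : ℕ := ⌈(V : ℝ) ^ (1 / 3 : ℝ)⌉₊ with hK
  have hc0 : (1 : ℝ) ≤ (V : ℝ) ^ (1 / 3 : ℝ) := Real.one_le_rpow hV1R (by norm_num)
  have hcube : ((V : ℝ) ^ (1 / 3 : ℝ)) ^ 3 = V := by
    rw [← Real.rpow_natCast, ← Real.rpow_mul hV0.le]
    norm_num
  have hKlo : (V : ℝ) ^ (1 / 3 : ℝ) ≤ K := Nat.le_ceil _
  have hKhi : (K : ℝ) ≤ 2 * (V : ℝ) ^ (1 / 3 : ℝ) := by
    have := Nat.ceil_lt_add_one (show (0 : ℝ) ≤ (V : ℝ) ^ (1 / 3 : ℝ) by linarith)
    rw [← hK] at this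
    linarith
  have hVK : (V : ℝ) ≤ (K : ℝ) ^ 3 := by
    rw [← hcube]
    gcongr
  have hKV : (K : ℝ) ^ 3 ≤ 8 * V := by
    calc (K : ℝ) ^ 3 ≤ (2 * (V : ℝ) ^ (1 / 3 : ℝ)) ^ 3 := by gcongr
      _ = 8 * ((V : ℝ) ^ (1 / 3 : ℝ)) ^ 3 := by ring
      _ = 8 * V := by rw [hcube]
  have hVK' : V ≤ K ^ 3 := by exact_mod_cast hVK
  have hK1 : (1 : ℝ) ≤ K := hc0.trans hKlo
  have hK0 : (0 : ℝ) < K := by linarith
  have hlogK : L / 4 ≤ Real.log K := by
    have h5 : 3 / 4 * L ≤ Real.log V := by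
      have := Real.log_le_log (by positivity) hVlo
      rw [Real.log_rpow hN0] at this
      exact this
    have h6 : Real.log V ≤ 3 * Real.log K := by
      have := Real.log_le_log hV0 hVK
      rw [Real.log_pow] at this
      push_cast at this
      exact this
    linarith
  have hNK : N₁ ≤ K := by
    have h7 : (N : ℝ) ≤ (K : ℝ) ^ 4 := by
      have h8 : L ≤ Real.log ((K : ℝ) ^ 4) := by
        rw [Real.log_pow]
        push_cast
        linarith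
      exact (Real.log_le_log_iff hN0 (by positivity)).1 h8
    have h9 : N₁ ^ 4 ≤ K ^ 4 := by
      have : N ≤ K ^ 4 := by exact_mod_cast h7
      omega
    exact (Nat.pow_le_pow_iff_left (by norm_num)).1 h9
  have hlK0 : 0 < Real.log K := by linarith
  have hqK : (q : ℝ) ≤ Real.log K ^ (B + 1) := by
    calc (q : ℝ) ≤ L ^ B := hqB
      _ ≤ (4 * Real.log K) ^ B := by
        gcongr
        linarith
      _ = 4 ^ B * Real.log K ^ B := by rw [mul_pow]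
      _ ≤ Real.log K * Real.log K ^ B := by
        gcongr
        linarith
      _ = Real.log K ^ (B + 1) := by ring
  -- the bound for the von Mangoldt sums
  have hPS : ∀ u ≤ V, ‖∑ j ∈ Ioc 0 u, (vonMangoldt j : ℂ) * χ j‖ ≤
      8 * 4 ^ (A + 1) * (V / L ^ (A + 1)) := by
    intro u hu
    have h10 : u ≤ 64 * K ^ 3 := by omega
    have h11 := (hN₁ K hNK q hq1 hqK χ u h10).1 hχ
    refine h11.trans ?_
    calc (K : ℝ) ^ 3 / Real.log K ^ (A + 1) ≤ 8 * V / (L / 4) ^ (A + 1) := by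
          gcongr
      _ = 8 * 4 ^ (A + 1) * (V / L ^ (A + 1)) := by
          rw [div_pow]
          field_simp
  have hsq : 2 * √(V : ℝ) * Real.log V ≤ V / L ^ (A + 1) := by
    have h12 : Real.log V ≤ 4 * L := by
      refine (Real.log_le_log hV0 ?_).trans (QPS_log64 N hN64)
      exact_mod_cast hVhi
    have h13 : 8 * L ^ (A + 2) ≤ √(V : ℝ) := by
      apply Real.le_sqrt_of_sq_le
      have h14 := hN₂ N h2N
      rw [← hL] at h14
      have h15 : (8 * L ^ (A + 2)) ^ 8 ≤ (N : ℝ) ^ 3 := by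
        calc (8 * L ^ (A + 2)) ^ 8 = 8 ^ 8 * L ^ (8 * A + 16) := by
              rw [mul_pow, ← pow_mul]
              congr 2
              ring
          _ ≤ 8 ^ 8 * (1 / 8 ^ 8 * (N : ℝ)) := by gcongr
          _ = (N : ℝ) := by ring
          _ ≤ (N : ℝ) ^ 3 := by
            calc (N : ℝ) = (N : ℝ) * 1 := (mul_one _).symm
              _ ≤ (N : ℝ) * (N : ℝ) ^ 2 := by
                gcongr
                nlinarith
              _ = (N : ℝ) ^ 3 := by ring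
      have h16 : ((8 * L ^ (A + 2)) ^ 2) ^ 4 ≤ (V : ℝ) ^ 4 := by
        calc ((8 * L ^ (A + 2)) ^ 2) ^ 4 = (8 * L ^ (A + 2)) ^ 8 := by ring
          _ ≤ (N : ℝ) ^ 3 := h15
          _ = ((N : ℝ) ^ (3 / 4 : ℝ)) ^ 4 := by
            rw [← Real.rpow_mul_natCast hN0.le]
            norm_num
          _ ≤ (V : ℝ) ^ 4 := by gcongr
      exact le_of_pow_le_pow_left₀ (by norm_num) hV0.le h16
    rw [le_div_iff₀ (by positivity)]
    calc 2 * √(V : ℝ) * Real.log V * L ^ (A + 1) ≤ 2 * √(V : ℝ) * (4 * L) * L ^ (A + 1) := by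
          gcongr
      _ = √(V : ℝ) * (8 * L ^ (A + 2)) := by ring
      _ ≤ √(V : ℝ) * √(V : ℝ) := by gcongr
      _ = V := Real.mul_self_sqrt hV0.le
  have hM : ∀ m ≤ s, ‖∑ p ∈ Ioc 0 m with p.Prime, (Real.log p : ℂ) * χ p‖ ≤
      (8 * 4 ^ (A + 1) + 1) * (V / L ^ (A + 1)) := by
    intro m hm
    have h17 := QPS_theta q χ m V (hm.trans hs) hV1
    have h18 := hPS m (hm.trans hs)
    linarith
  refine (QPS_weight q χ _ s hM).trans ?_
  have h19 : (V : ℝ) / L ^ A = L * (V / L ^ (A + 1)) := by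
    rw [pow_succ]
    field_simp
  rw [h19, ← mul_assoc]
  apply mul_le_mul_of_nonneg_right _ (by positivity)
  linarith

/-- uniqueness of the representation -/
theorem QPS_inj {a b c d a' b' c' d' : ℕ} (ha : a.Prime) (hb : b.Prime) (hc : c.Prime)
    (hd : d.Prime) (ha' : a'.Prime) (hb' : b'.Prime) (hc' : c'.Prime) (hd' : d'.Prime)
    (hab : a ≤ b) (hbc : b ≤ c) (hcd : c ≤ d) (hab' : a' ≤ b') (hbc' : b' ≤ c') (hcd' : c' ≤ d')
    (h : a * b * c * d = a' * b' * c' * d') : a = a' ∧ b = b' ∧ c = c' ∧ d = d' := by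
  have h1 : ([a, b, c, d] : List ℕ).Perm (a * b * c * d).primeFactorsList := by
    apply Nat.primeFactorsList_unique
    · simp [mul_assoc]
    · intro p hp
      simp only [List.mem_cons, List.not_mem_nil, or_false] at hp
      rcases hp with rfl | rfl | rfl | rfl <;> assumption
  have h2 : ([a', b', c', d'] : List ℕ).Perm (a' * b' * c' * d').primeFactorsList := by
    apply Nat.primeFactorsList_unique
    · simp [mul_assoc]
    · intro p hp
      simp only [List.mem_cons, List.not_mem_nil, or_false] at hp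
      rcases hp with rfl | rfl | rfl | rfl <;> assumption
  rw [← h] at h2
  have h3 : ([a, b, c, d] : List ℕ).Perm [a', b', c', d'] := h1.trans h2.symm
  have h4 : [a, b, c, d] = [a', b', c', d'] := by
    refine List.Perm.eq_of_pairwise' (r := (· ≤ ·)) ?_ ?_ h3
    · simp only [List.pairwise_cons, List.mem_cons, List.not_mem_nil, or_false, forall_eq_or_imp,
        forall_eq, false_imp_iff, implies_true, List.Pairwise.nil, and_true]
      omega
    · simp only [List.pairwise_cons, List.mem_cons, List.not_mem_nil, or_false, forall_eq_or_imp,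
        forall_eq, false_imp_iff, implies_true, List.Pairwise.nil, and_true]
      omega
  simp only [List.cons.injEq, and_true] at h4
  exact h4

theorem QPS_mulsum (S : Finset ℕ) (x : ℝ) (f : ℕ → ℝ) :
    x * ((∑ b ∈ S, f b) * ∑ c ∈ S, f c) = ∑ b ∈ S, ∑ c ∈ S, x * (f b * f c) := by
  rw [sum_mul_sum, mul_sum]
  apply sum_congr rfl
  intro b _
  rw [mul_sum]

open Classical in
/-- the triples -/
noncomputable def QPS_T (N : ℕ) (z y : ℝ) : Finset (ℕ × ℕ × ℕ) :=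
  ((Ioc 0 (64 * N ^ 3)) ×ˢ ((Ioc 0 (64 * N ^ 3)) ×ˢ (Ioc 0 (64 * N ^ 3)))).filter fun t =>
    (t.1.Prime ∧ z ≤ t.1 ∧ (t.1 : ℝ) < y) ∧ t.2.1.Prime ∧ t.2.2.Prime ∧ y ≤ t.2.1 ∧ t.2.1 ≤ t.2.2

/-- the last prime -/
def QPS_I (u : ℕ) (t : ℕ × ℕ × ℕ) : Finset ℕ :=
  (Ioc 0 u).filter fun p => p.Prime ∧ t.2.2 ≤ p ∧ t.1 * t.2.1 * t.2.2 * p ≤ u

open Classical in
theorem QPS_memBN (N : ℕ) (z y : ℝ) (b : ℕ) :
    b ∈ BN N z y ↔ (0 < b ∧ b ≤ 64 * N ^ 3) ∧ Bs z y b := by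
  unfold BN
  rw [mem_filter, mem_Ioc]

open Classical in
theorem QPS_memT (N : ℕ) (z y : ℝ) (t : ℕ × ℕ × ℕ) :
    t ∈ QPS_T N z y ↔ t ∈ ((Ioc 0 (64 * N ^ 3)) ×ˢ ((Ioc 0 (64 * N ^ 3)) ×ˢ (Ioc 0 (64 * N ^ 3)))) ∧
    (t.1.Prime ∧ z ≤ t.1 ∧ (t.1 : ℝ) < y) ∧ t.2.1.Prime ∧ t.2.2.Prime ∧ y ≤ t.2.1 ∧ t.2.1 ≤ t.2.2 := by
  unfold QPS_T
  rw [mem_filter]

theorem QPS_sum (N : ℕ) (z y : ℝ) (u : ℕ) (hu : u ≤ 64 * N ^ 3) (f : ℕ → ℂ) :
    ∑ b ∈ (BN N z y).filter (fun b => b ≤ u), f b =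
      ∑ t ∈ QPS_T N z y, ∑ p ∈ QPS_I u t, f (t.1 * t.2.1 * t.2.2 * p) := by
  rw [sum_sigma' (QPS_T N z y) (QPS_I u) (fun t p => f (t.1 * t.2.1 * t.2.2 * p))]
  symm
  refine sum_bij (fun x _ => x.1.1 * x.1.2.1 * x.1.2.2 * x.2) ?_ ?_ ?_ ?_
  · rintro ⟨⟨a, b, c⟩, d⟩ hx
    rw [mem_sigma] at hx
    unfold QPS_I at hx
    rw [QPS_memT, mem_filter] at hx
    obtain ⟨⟨h0, ⟨ha, hza, hay⟩, hb, hc, hyb, hbc⟩, ⟨hd0, hd, hcd, hle⟩⟩ := hx
    simp only at ha hza hay hb hc hyb hbc hcd hle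
    rw [mem_filter, QPS_memBN]
    have hpos : 0 < a * b * c * d :=
      Nat.mul_pos (Nat.mul_pos (Nat.mul_pos ha.pos hb.pos) hc.pos) hd.pos
    refine ⟨⟨⟨hpos, hle.trans hu⟩, ?_⟩, hle⟩
    refine ⟨a, b * c * d, ⟨ha, hza, hay⟩, ⟨b, c, d, hb, hc, hd, hyb, hbc, hcd, rfl⟩, ?_⟩
    simp only
    ring
  · rintro ⟨⟨a, b, c⟩, d⟩ hx ⟨⟨a', b', c'⟩, d'⟩ hx' heq
    rw [mem_sigma] at hx hx'
    unfold QPS_I at hx hx'
    rw [QPS_memT, mem_filter] at hx hx'
    obtain ⟨⟨h0, ⟨ha, hza, hay⟩, hb, hc, hyb, hbc⟩, ⟨hd0, hd, hcd, hle⟩⟩ := hx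
    obtain ⟨⟨h0', ⟨ha', hza', hay'⟩, hb', hc', hyb', hbc'⟩, ⟨hd0', hd', hcd', hle'⟩⟩ := hx'
    simp only at ha hza hay hb hc hyb hbc hcd hle ha' hza' hay' hb' hc' hyb' hbc' hcd' hle' heq
    have hab : a ≤ b := by
      have : (a : ℝ) < b := lt_of_lt_of_le hay hyb
      exact_mod_cast this.le
    have hab' : a' ≤ b' := by
      have : (a' : ℝ) < b' := lt_of_lt_of_le hay' hyb'
      exact_mod_cast this.le
    obtain ⟨rfl, rfl, rfl, rfl⟩ := QPS_inj ha hb hc hd ha' hb' hc' hd' hab hbc hcd hab' hbc' hcd' heq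
    rfl
  · intro n hn
    rw [mem_filter, QPS_memBN] at hn
    obtain ⟨⟨⟨hn0, hnN⟩, p, k, ⟨hp, hzp, hpy⟩, ⟨b, c, d, hb, hc, hd, hyb, hbc, hcd, rfl⟩, rfl⟩, hle⟩ := hn
    have e : p * (b * c * d) = p * b * c * d := by ring
    have hpos : ∀ m : ℕ, 0 < m → m ∣ p * (b * c * d) → m ∈ Ioc 0 (64 * N ^ 3) := by
      intro m hm hdm
      rw [mem_Ioc]
      exact ⟨hm, (Nat.le_of_dvd hn0 hdm).trans hnN⟩
    refine ⟨⟨⟨p, b, c⟩, d⟩, ?_, ?_⟩
    · rw [mem_sigma]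
      unfold QPS_I
      rw [QPS_memT, mem_filter, mem_product, mem_product]
      refine ⟨⟨⟨hpos p hp.pos (dvd_mul_right _ _), hpos b hb.pos ⟨p * c * d, by ring⟩,
        hpos c hc.pos ⟨p * b * d, by ring⟩⟩, ⟨hp, hzp, hpy⟩, hb, hc, hyb, hbc⟩, ?_, hd, hcd, ?_⟩
      · rw [mem_Ioc]
        refine ⟨hd.pos, ?_⟩
        refine le_trans ?_ hle
        exact Nat.le_of_dvd hn0 ⟨p * b * c, by ring⟩
      · simp only
        rw [← e]
        exact hle
    · simp only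
      rw [← e]
  · intro x _
    rfl

theorem QPS (hPS : PS_stmt) : QPS_stmt := by
  intro A B
  obtain ⟨N₁, hN₁⟩ := QPS_pr hPS (A + 4) B
  obtain ⟨N₂, h64, hN₂⟩ := QPS_loglarge 16000
  refine ⟨max N₁ N₂, ?_⟩
  intro N hN z y hPZ q hq1 hqB χ hχ u hu
  have h1N : N₁ ≤ N := (le_max_left _ _).trans hN
  have h2N : N₂ ≤ N := (le_max_right _ _).trans hN
  have hN64 : 64 ≤ N := h64.trans h2N
  set L := Real.log N with hL
  have hLbig : 16000 ≤ L := hN₂ N h2N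
  have hL0 : 0 < L := by linarith
  have hN0 : (0 : ℝ) < N := by exact_mod_cast (by omega : 0 < N)
  obtain ⟨hz, hzy, hy4, hyN⟩ := hPZ
  have hz0 : 0 < z := lt_of_lt_of_le (by positivity) hz
  have hy0 : 0 < y := lt_of_lt_of_le hz0 hzy
  have hyN34 : (N : ℝ) ^ (3 / 4 : ℝ) ≤ y := by
    have h1 : ((N : ℝ) ^ (3 / 4 : ℝ)) ^ 4 ≤ y ^ 4 := by
      rw [← Real.rpow_mul_natCast hN0.le]
      have e : (3 / 4 : ℝ) * ((4 : ℕ) : ℝ) = ((3 : ℕ) : ℝ) := by norm_num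
      rw [e, Real.rpow_natCast]
      have : (0 : ℝ) ≤ (N : ℝ) ^ 3 := by positivity
      linarith
    exact le_of_pow_le_pow_left₀ (by norm_num) hy0.le h1
  rw [QPS_sum N z y u hu]
  -- the inner sums
  have hinner : ∀ t ∈ QPS_T N z y, ‖∑ p ∈ QPS_I u t, χ ((t.1 * t.2.1 * t.2.2 * p : ℕ) : ZMod q)‖ ≤
      128 * (N : ℝ) ^ 3 / L ^ (A + 4) * ((1 / (t.1 : ℝ)) * ((1 / (t.2.1 : ℝ)) * (1 / (t.2.2 : ℝ)))) := by
    rintro ⟨a, b, c⟩ ht
    rw [QPS_memT] at ht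
    obtain ⟨h0, ⟨ha, hza, hay⟩, hb, hc, hyb, hbc⟩ := ht
    simp only at ha hza hay hb hc hyb hbc ⊢
    have hm0 : 0 < a * b * c := Nat.mul_pos (Nat.mul_pos ha.pos hb.pos) hc.pos
    have ha0 : (0 : ℝ) < a := by exact_mod_cast ha.pos
    have hb0 : (0 : ℝ) < b := by exact_mod_cast hb.pos
    have hc0 : (0 : ℝ) < c := by exact_mod_cast hc.pos
    set V : ℕ := u / (a * b * c) with hV
    have hI : QPS_I u (a, b, c) = (Ioc 0 V).filter (fun p => p.Prime ∧ c ≤ p) := by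
      unfold QPS_I
      ext p
      rw [mem_filter, mem_filter, mem_Ioc, mem_Ioc]
      simp only
      have hiff : p ≤ V ↔ a * b * c * p ≤ u := by
        rw [hV, Nat.le_div_iff_mul_le hm0, mul_comm]
      rw [hiff]
      constructor
      · rintro ⟨⟨h1, h2⟩, h3, h4, h5⟩
        exact ⟨⟨h1, h5⟩, h3, h4⟩
      · rintro ⟨⟨h1, h5⟩, h3, h4⟩
        refine ⟨⟨h1, ?_⟩, h3, h4, h5⟩
        exact (Nat.le_mul_of_pos_left p hm0).trans h5
    have e1 : ∑ p ∈ QPS_I u (a, b, c), χ ((a * b * c * p : ℕ) : ZMod q) =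
        χ ((a * b * c : ℕ) : ZMod q) * ∑ p ∈ (Ioc 0 V).filter (fun p => p.Prime ∧ c ≤ p),
          χ (p : ZMod q) := by
      rw [hI, mul_sum]
      apply sum_congr rfl
      intro p _
      rw [← map_mul]
      push_cast
      rfl
    rw [e1, norm_mul]
    have hRHS0 : 0 ≤ 128 * (N : ℝ) ^ 3 / L ^ (A + 4) * (1 / (a : ℝ) * (1 / (b : ℝ) * (1 / (c : ℝ)))) := by
      positivity
    rcases Nat.lt_or_ge V c with hVc | hVc
    · have : (Ioc 0 V).filter (fun p => p.Prime ∧ c ≤ p) = ∅ := by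
        apply filter_eq_empty_iff.2
        intro p hp hpp
        rw [mem_Ioc] at hp
        omega
      rw [this, sum_empty, norm_zero, mul_zero]
      exact hRHS0
    · have hVy : (N : ℝ) ^ (3 / 4 : ℝ) ≤ V := by
        have h3 : (c : ℝ) ≤ V := by exact_mod_cast hVc
        have h4 : (b : ℝ) ≤ c := by exact_mod_cast hbc
        linarith
      have hVN : V ≤ 64 * N ^ 3 := (Nat.div_le_self _ _).trans hu
      have e2 : ∑ p ∈ (Ioc 0 V).filter (fun p => p.Prime ∧ c ≤ p), χ (p : ZMod q) =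
          ∑ p ∈ Ioc 0 V with p.Prime, χ (p : ZMod q) -
            ∑ p ∈ Ioc 0 (c - 1) with p.Prime, χ (p : ZMod q) := by
        rw [eq_sub_iff_add_eq, add_comm]
        have hdisj : Disjoint ((Ioc 0 (c - 1)).filter (fun p => p.Prime))
            ((Ioc 0 V).filter (fun p => p.Prime ∧ c ≤ p)) := by
          rw [disjoint_left]
          intro p hp hp'
          rw [mem_filter, mem_Ioc] at hp hp'
          omega
        rw [← sum_union hdisj]
        apply sum_congr _ (fun _ _ => rfl)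
        ext p
        rw [mem_union, mem_filter, mem_filter, mem_filter, mem_Ioc, mem_Ioc]
        constructor
        · rintro (⟨h1, h2⟩ | ⟨h1, h2⟩)
          · exact ⟨by omega, h2⟩
          · exact ⟨h1, h2.1⟩
        · rintro ⟨h1, h2⟩
          by_cases hpc : c ≤ p
          · exact Or.inr ⟨h1, h2, hpc⟩
          · exact Or.inl ⟨by omega, h2⟩
      have h5 := hN₁ N h1N q hq1 hqB χ hχ V hVy hVN V (le_refl _)
      have h6 := hN₁ N h1N q hq1 hqB χ hχ V hVy hVN (c - 1) (by omega)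
      have h7 : ‖∑ p ∈ (Ioc 0 V).filter (fun p => p.Prime ∧ c ≤ p), χ (p : ZMod q)‖ ≤
          2 * (V / L ^ (A + 4)) := by
        rw [e2]
        refine (norm_sub_le _ _).trans ?_
        linarith
      have h8 : (V : ℝ) ≤ 64 * (N : ℝ) ^ 3 * (1 / (a : ℝ) * (1 / (b : ℝ) * (1 / (c : ℝ)))) := by
        have h9 : (V : ℝ) ≤ (u : ℝ) / ((a * b * c : ℕ) : ℝ) := by
          rw [hV]
          exact Nat.cast_div_le
        have h10 : (u : ℝ) ≤ 64 * (N : ℝ) ^ 3 := by exact_mod_cast hu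
        calc (V : ℝ) ≤ (u : ℝ) / ((a * b * c : ℕ) : ℝ) := h9
          _ ≤ 64 * (N : ℝ) ^ 3 / ((a * b * c : ℕ) : ℝ) := by gcongr
          _ = 64 * (N : ℝ) ^ 3 * (1 / (a : ℝ) * (1 / (b : ℝ) * (1 / (c : ℝ)))) := by
            push_cast
            field_simp
      have h11 : ‖χ ((a * b * c : ℕ) : ZMod q)‖ ≤ 1 := DirichletCharacter.norm_le_one χ _
      calc ‖χ ((a * b * c : ℕ) : ZMod q)‖ *
            ‖∑ p ∈ (Ioc 0 V).filter (fun p => p.Prime ∧ c ≤ p), χ (p : ZMod q)‖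
          ≤ 1 * (2 * (V / L ^ (A + 4))) := mul_le_mul h11 h7 (norm_nonneg _) zero_le_one
        _ = 2 * V / L ^ (A + 4) := by ring
        _ ≤ 2 * (64 * (N : ℝ) ^ 3 * (1 / (a : ℝ) * (1 / (b : ℝ) * (1 / (c : ℝ))))) /
            L ^ (A + 4) := by gcongr
        _ = 128 * (N : ℝ) ^ 3 / L ^ (A + 4) *
            (1 / (a : ℝ) * (1 / (b : ℝ) * (1 / (c : ℝ)))) := by ring
  refine (norm_sum_le _ _).trans ((sum_le_sum hinner).trans ?_)
  rw [← mul_sum]
  -- the harmonic sum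
  set H : ℝ := ∑ n ∈ Ioc (0 : ℕ) (64 * N ^ 3), 1 / ((n : ℕ) : ℝ) with hH
  have hH0 : 0 ≤ H := sum_nonneg fun n _ => by positivity
  have hHL : H ≤ 5 * L := by
    have h1 : H = (harmonic (64 * N ^ 3) : ℝ) := by
      rw [hH, harmonic_eq_sum_Icc]
      push_cast
      apply sum_congr
      · ext x
        rw [mem_Ioc, mem_Icc]
        omega
      · intro n _
        rw [one_div]
    rw [h1]
    have h2 := harmonic_le_one_add_log (64 * N ^ 3)
    have h3 := QPS_log64 N hN64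
    rw [← hL] at h3
    linarith
  have hT : ∑ t ∈ QPS_T N z y, ((1 / (t.1 : ℝ)) * ((1 / (t.2.1 : ℝ)) * (1 / (t.2.2 : ℝ)))) ≤
      H * (H * H) := by
    refine (sum_le_sum_of_subset_of_nonneg (filter_subset _ _)
      (fun t _ _ => by positivity)).trans ?_
    rw [sum_product, hH, sum_mul]
    apply sum_le_sum
    intro a _
    rw [sum_product]
    exact le_of_eq (QPS_mulsum (Ioc 0 (64 * N ^ 3)) (1 / (a : ℝ)) (fun n => 1 / (n : ℝ))).symm
  have hH3 : H * (H * H) ≤ 125 * L ^ 3 := by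
    calc H * (H * H) ≤ (5 * L) * ((5 * L) * (5 * L)) := by gcongr
      _ = 125 * L ^ 3 := by ring
  calc 128 * (N : ℝ) ^ 3 / L ^ (A + 4) *
        ∑ t ∈ QPS_T N z y, ((1 / (t.1 : ℝ)) * ((1 / (t.2.1 : ℝ)) * (1 / (t.2.2 : ℝ))))
      ≤ 128 * (N : ℝ) ^ 3 / L ^ (A + 4) * (125 * L ^ 3) := by
        gcongr
        exact hT.trans hH3
    _ = 16000 * ((N : ℝ) ^ 3 / L ^ (A + 1)) := by
        have : L ^ (A + 4) = L ^ (A + 1) * L ^ 3 := by rw [← pow_add]
        rw [this]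
        have h31 : L ^ 3 ≠ 0 := by positivity
        have h32 : L ^ (A + 1) ≠ 0 := by positivity
        field_simp
        norm_num
    _ ≤ L * ((N : ℝ) ^ 3 / L ^ (A + 1)) := by gcongr
    _ = (N : ℝ) ^ 3 / L ^ A := by
        rw [pow_succ L A]
        field_simp

end Pool.Agent.CH
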