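import Pool.Agent.helper17.CH.SpecW
import Pool.Agent.helper92.GD.BV4

/-!
# MP_5628fe, row SC: characters of small conductor, windows
-/

set_option autoImplicit false

namespace Pool.Agent.CH

open Finset ArithmeticFunction
open GD (kp ks)

theorem SC_win {N : ℕ} (c : ℕ → ℝ) (hc : ∀ n, |c n| ≤ 1) (j : ℕ) : |cc N c j| ≤ 1 := by
  unfold cc
  by_cases h : ∃ n ∈ Ico N (2 * N), j ∈ Win n
  · obtain ⟨n, hn, hj⟩ := h
    rw [sum_eq_single_of_mem n hn]
    · rw [if_pos hj]
      exact hc n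
    · intro m _ hmn
      rw [if_neg]
      intro hm
      unfold Win at hj hm
      rw [mem_Ioc] at hj hm
      apply hmn
      by_contra _
      rcases lt_or_gt_of_ne hmn with hlt | hlt
      · have h1 : (m + 1) ^ 3 ≤ n ^ 3 := Nat.pow_le_pow_left hlt 3
        omega
      · have h1 : (n + 1) ^ 3 ≤ m ^ 3 := Nat.pow_le_pow_left hlt 3
        omega
  · have : ∑ n ∈ Ico N (2 * N), (if j ∈ Win n then c n else 0) = 0 := by
      apply sum_eq_zero
      intro n hn
      rw [if_neg (fun hj => h ⟨n, hn, hj⟩)]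
    rw [this]
    simp

open Classical in
/-- reduction to the single characters -/
theorem SC_red (J : Finset ℕ) (w : ℕ → ℝ) (S : ℝ) (m c R : ℕ) (hm : 0 < m) (hc : Nat.Coprime c m)
    (hR : 1 ≤ R) (ε : ℝ)
    (hε : ∀ χ : DirichletCharacter ℂ m, χ.conductor ≤ R →
      (χ = 1 → ‖∑ n ∈ J, (vonMangoldt n : ℂ) * χ n * (w n : ℂ) - (S : ℂ)‖ ≤ ε) ∧
      (χ ≠ 1 → ‖∑ n ∈ J, (vonMangoldt n : ℂ) * χ n * (w n : ℂ) - 0‖ ≤ ε)) :
    |∑ n ∈ J, vonMangoldt n * w n * ks R m c n - (1 / (Nat.totient m : ℝ)) * S| ≤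
      (1 / (Nat.totient m : ℝ)) * ((R * R : ℕ) * ε) := by
  have : NeZero m := ⟨hm.ne'⟩
  have hφ : 0 < Nat.totient m := Nat.totient_pos.2 hm
  have hφ0 : (0 : ℝ) < Nat.totient m := by exact_mod_cast hφ
  set F := (univ : Finset (DirichletCharacter ℂ m)).filter fun χ => χ.conductor ≤ R with hF
  have hε0 : 0 ≤ ε := by
    refine (norm_nonneg _).trans ((hε 1 ?_).1 rfl)
    rw [DirichletCharacter.eq_one_iff_conductor_eq_one.1 rfl]
    exact hR
  have h1F : (1 : DirichletCharacter ℂ m) ∈ F := by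
    rw [hF, mem_filter]
    refine ⟨mem_univ _, ?_⟩
    rw [DirichletCharacter.eq_one_iff_conductor_eq_one.1 rfl]
    exact hR
  have key : ∑ n ∈ J, vonMangoldt n * w n * ks R m c n - (1 / (Nat.totient m : ℝ)) * S =
      (1 / (Nat.totient m : ℝ)) * (∑ χ ∈ F, (starRingEnd ℂ) (χ c) *
        (∑ n ∈ J, (vonMangoldt n : ℂ) * χ n * (w n : ℂ) - (if χ = 1 then (S : ℂ) else 0))).re := by
    have e1 : ∑ χ ∈ F, (starRingEnd ℂ) (χ c) * (if χ = 1 then (S : ℂ) else 0) = S := by
      rw [sum_eq_single_of_mem 1 h1F (fun χ _ hχ => by rw [if_neg hχ, mul_zero]), if_pos rfl,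
        MulChar.one_apply ((ZMod.isUnit_iff_coprime c m).2 hc), map_one, one_mul]
    have e2 : ∑ n ∈ J, vonMangoldt n * w n * ks R m c n =
        (1 / (Nat.totient m : ℝ)) * (∑ χ ∈ F, (starRingEnd ℂ) (χ c) *
          ∑ n ∈ J, (vonMangoldt n : ℂ) * χ n * (w n : ℂ)).re := by
      have e3 : ∑ χ ∈ F, (starRingEnd ℂ) (χ c) * ∑ n ∈ J, (vonMangoldt n : ℂ) * χ n * (w n : ℂ) =
          ∑ n ∈ J, ((vonMangoldt n * w n : ℝ) : ℂ) *
            ∑ χ ∈ F, (starRingEnd ℂ) (χ c) * χ n := by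
        simp_rw [mul_sum]
        rw [sum_comm]
        refine sum_congr rfl fun n _ => sum_congr rfl fun χ _ => ?_
        push_cast
        ring
      rw [e3, Complex.re_sum, mul_sum]
      refine sum_congr rfl fun n _ => ?_
      rw [Complex.re_ofReal_mul]
      unfold ks
      ring
    simp_rw [mul_sub]
    rw [sum_sub_distrib, e1, Complex.sub_re, mul_sub, e2, Complex.ofReal_re]
  rw [key, abs_mul, abs_of_nonneg (by positivity : 0 ≤ 1 / (Nat.totient m : ℝ))]
  refine mul_le_mul_of_nonneg_left ?_ (by positivity)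
  refine (Complex.abs_re_le_norm _).trans ((norm_sum_le _ _).trans ?_)
  calc ∑ χ ∈ F, ‖(starRingEnd ℂ) (χ c) *
        (∑ n ∈ J, (vonMangoldt n : ℂ) * χ n * (w n : ℂ) - (if χ = 1 then (S : ℂ) else 0))‖
      ≤ ∑ χ ∈ F, ε := by
        apply sum_le_sum
        intro χ hχ
        rw [norm_mul, RCLike.norm_conj]
        have h1 := DirichletCharacter.norm_le_one χ (c : ZMod m)
        have h2 := hε χ (mem_filter.1 hχ).2
        by_cases hχ1 : χ = 1
        · rw [if_pos hχ1]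
          exact (mul_le_mul h1 (h2.1 hχ1) (norm_nonneg _) zero_le_one).trans (le_of_eq (one_mul ε))
        · rw [if_neg hχ1]
          exact (mul_le_mul h1 (h2.2 hχ1) (norm_nonneg _) zero_le_one).trans (le_of_eq (one_mul ε))
    _ = (#F : ℝ) * ε := by rw [sum_const, nsmul_eq_mul]
    _ ≤ ((R * R : ℕ) : ℝ) * ε := by
        apply mul_le_mul_of_nonneg_right _ hε0
        exact_mod_cast GD.BV4_card m R hm

/-- passing to the primitive character -/
theorem SC_prim (m u : ℕ) (w : ℕ → ℝ) (hw : ∀ n, |w n| ≤ 1) (χ : DirichletCharacter ℂ m) (S : ℂ) :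
    ‖∑ n ∈ Ioc 0 u, (vonMangoldt n : ℂ) * χ n * (w n : ℂ) - S‖ ≤
      ‖∑ n ∈ Ioc 0 u, (vonMangoldt n : ℂ) * χ.primitiveCharacter n * (w n : ℂ) - S‖ +
        ∑ n ∈ Ioc 0 u with ¬ Nat.Coprime n m, vonMangoldt n := by
  have h1 : ∑ n ∈ Ioc 0 u, (vonMangoldt n : ℂ) * χ n * (w n : ℂ) =
      ∑ n ∈ Ioc 0 u, (vonMangoldt n : ℂ) * χ.primitiveCharacter n * (w n : ℂ) -
        ∑ n ∈ Ioc 0 u with ¬ Nat.Coprime n m,
          (vonMangoldt n : ℂ) * χ.primitiveCharacter n * (w n : ℂ) := by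
    rw [sum_filter, ← sum_sub_distrib]
    refine sum_congr rfl fun n _ => ?_
    by_cases hn : Nat.Coprime n m
    · have h2 := χ.primitiveCharacter_apply_of_isCoprime (a := (n : ℤ))
        (Nat.isCoprime_iff_coprime.mpr hn)
      push_cast at h2
      rw [if_neg (by simpa using hn), sub_zero, h2]
    · rw [if_pos hn, sub_self, MulChar.map_nonunit _ (fun h => hn
        ((ZMod.isUnit_iff_coprime n m).1 h)), mul_zero, zero_mul]
  rw [h1, sub_right_comm]
  refine (norm_sub_le _ _).trans (add_le_add le_rfl ?_)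
  refine (norm_sum_le _ _).trans (sum_le_sum fun n _ => ?_)
  rw [norm_mul, norm_mul, Complex.norm_real, Complex.norm_real,
    Real.norm_of_nonneg vonMangoldt_nonneg, Real.norm_eq_abs]
  have h2 := DirichletCharacter.norm_le_one χ.primitiveCharacter (n : ZMod χ.conductor)
  have h3 := hw n
  calc vonMangoldt n * ‖χ.primitiveCharacter (n : ZMod χ.conductor)‖ * |w n|
      ≤ vonMangoldt n * 1 * 1 := by
        have h0 : 0 ≤ vonMangoldt n := vonMangoldt_nonneg
        gcongr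
    _ = vonMangoldt n := by ring

theorem SC (hWN : WN_stmt) : SC_stmt := by
  intro A B
  obtain ⟨N₁, hN₁⟩ := hWN (A + 2 * B + 1) B
  obtain ⟨N₂, hN₂⟩ := GD.BV4_logpow (A + 2 * B + 3) (1 / 576) (by norm_num)
  refine ⟨max N₁ (max N₂ 64), ?_⟩
  intro N hN c hc M a R hM hMN haM hR hRB
  have h1N : N₁ ≤ N := (le_max_left _ _).trans hN
  have h2N : N₂ ≤ N := (le_max_left _ _).trans ((le_max_right _ _).trans hN)
  have h64 : 64 ≤ N := (le_max_right _ _).trans ((le_max_right _ _).trans hN)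
  set L := Real.log N with hL
  have hN0 : (0 : ℝ) < N := by exact_mod_cast (by omega : 0 < N)
  have hNR : (64 : ℝ) ≤ N := by exact_mod_cast h64
  have hL2 : 2 ≤ L := by
    rw [hL, Real.le_log_iff_exp_le hN0]
    have h3 : Real.exp 2 < 9 := by
      have := Real.exp_one_lt_d9
      have h4 : Real.exp 2 = Real.exp 1 ^ 2 := by rw [← Real.exp_nat_mul]; norm_num
      rw [h4]
      have h5 : 0 < Real.exp 1 := Real.exp_pos 1
      nlinarith
    linarith
  have hL0 : 0 < L := by linarith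
  have hc1 : ∀ n, |cc N c n| ≤ 1 := fun n => SC_win c hc n
  -- bound for each character
  set S : ℝ := ∑ j ∈ Ioc 0 (64 * N ^ 3), cc N c j with hS
  set E : ℝ := (N : ℝ) ^ 3 / L ^ (A + 2 * B) with hE
  have hnon : ∑ n ∈ Ioc 0 (64 * N ^ 3) with ¬ Nat.Coprime n M, vonMangoldt n ≤
      1 / 2 * E := by
    have hu : 0 < 64 * N ^ 3 := by positivity
    refine (GD.BV4_noncoprime M (64 * N ^ 3) hM hu).trans ?_
    have hlogu : Real.log ((64 * N ^ 3 : ℕ) : ℝ) ≤ 4 * L := by
      have h3 : ((64 * N ^ 3 : ℕ) : ℝ) ≤ (N : ℝ) ^ 4 := by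
        push_cast
        calc (64 : ℝ) * N ^ 3 ≤ N * N ^ 3 := by gcongr
          _ = (N : ℝ) ^ 4 := by ring
      calc Real.log ((64 * N ^ 3 : ℕ) : ℝ) ≤ Real.log ((N : ℝ) ^ 4) :=
            Real.log_le_log (by exact_mod_cast hu) h3
        _ = 4 * L := by rw [Real.log_pow]; push_cast; rfl
    have hlogM : Real.log M ≤ 4 * L :=
      (Real.log_le_log (by exact_mod_cast hM) (by exact_mod_cast hMN)).trans hlogu
    have hlogu0 : 0 ≤ Real.log ((64 * N ^ 3 : ℕ) : ℝ) := Real.log_natCast_nonneg _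
    have hlogM0 : 0 ≤ Real.log M := Real.log_natCast_nonneg _
    have h4 := hN₂ N h2N
    rw [← hL] at h4
    calc 2 * Real.log M * (2 * Real.log ((64 * N ^ 3 : ℕ) : ℝ) + 1) *
          Real.log ((64 * N ^ 3 : ℕ) : ℝ) ≤ 2 * (4 * L) * (2 * (4 * L) + 1) * (4 * L) := by
          gcongr
      _ ≤ 2 * (4 * L) * (9 * L) * (4 * L) := by gcongr; linarith
      _ = 288 * L ^ 3 := by ring
      _ ≤ 1 / 2 * E := by
        rw [hE, ← mul_div_assoc, le_div_iff₀ (by positivity)]
        calc 288 * L ^ 3 * L ^ (A + 2 * B) = 288 * L ^ (A + 2 * B + 3) := by ring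
          _ ≤ 288 * (1 / 576 * N) := by gcongr
          _ = 1 / 2 * (N : ℝ) := by ring
          _ ≤ 1 / 2 * (N : ℝ) ^ 3 := by
            have : (N : ℝ) ≤ (N : ℝ) ^ 3 := by
              calc (N : ℝ) = (N : ℝ) * 1 := (mul_one _).symm
                _ ≤ (N : ℝ) * (N : ℝ) ^ 2 := by
                  gcongr
                  nlinarith
                _ = (N : ℝ) ^ 3 := by ring
            linarith
  have hhalf : (N : ℝ) ^ 3 / L ^ (A + 2 * B + 1) ≤ 1 / 2 * E := by
    rw [hE, pow_succ L (A + 2 * B), ← div_div]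
    rw [div_le_iff₀ hL0]
    have h5 : 0 ≤ (N : ℝ) ^ 3 / L ^ (A + 2 * B) := by positivity
    nlinarith
  have hone : ∀ χ : DirichletCharacter ℂ M, χ.conductor ≤ R →
      (χ = 1 → ‖∑ n ∈ Ioc 0 (64 * N ^ 3), (vonMangoldt n : ℂ) * χ n * (cc N c n : ℂ) -
        (S : ℂ)‖ ≤ E) ∧
      (χ ≠ 1 → ‖∑ n ∈ Ioc 0 (64 * N ^ 3), (vonMangoldt n : ℂ) * χ n * (cc N c n : ℂ) - 0‖ ≤ E) := by
    intro χ hχ
    have : NeZero M := ⟨hM.ne'⟩
    have hcond0 : χ.conductor ≠ 0 := DirichletCharacter.conductor_ne_zero χ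
    have hcB : (χ.conductor : ℝ) ≤ Real.log N ^ B := by
      refine le_trans ?_ hRB
      exact_mod_cast hχ
    obtain ⟨g1, g2⟩ := hN₁ N h1N χ.conductor (Nat.one_le_iff_ne_zero.2 hcond0) hcB
      χ.primitiveCharacter c hc
    constructor
    · intro hχ1
      refine (SC_prim M (64 * N ^ 3) (cc N c) hc1 χ _).trans ?_
      have hp1 : χ.primitiveCharacter = 1 := by
        have hlev : χ.conductor = 1 := DirichletCharacter.eq_one_iff_conductor_eq_one.1 hχ1
        have hsub : ∀ k : ℕ, k = 1 → ∀ ψ : DirichletCharacter ℂ k, ψ = 1 := by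
          intro k hk ψ
          subst hk
          exact DirichletCharacter.level_one ψ
        exact hsub _ hlev _
      have g3 := g2 hp1
      have e : ∑ n ∈ Ioc 0 (64 * N ^ 3), (vonMangoldt n : ℂ) * χ.primitiveCharacter n *
          (cc N c n : ℂ) - (S : ℂ) = ∑ j ∈ Ioc 0 (64 * N ^ 3),
            ((vonMangoldt j : ℂ) * χ.primitiveCharacter j - 1) * (cc N c j : ℂ) := by
        rw [hS]
        push_cast
        rw [← sum_sub_distrib]
        apply sum_congr rfl
        intro j _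
        ring
      rw [e]
      linarith
    · intro hχ1
      refine (SC_prim M (64 * N ^ 3) (cc N c) hc1 χ _).trans ?_
      have g3 := g1 (by
        intro h
        apply hχ1
        have h5 := χ.changeLevel_primitiveCharacter
        rw [h, map_one] at h5
        exact h5.symm)
      rw [sub_zero]
      linarith
  refine (SC_red (Ioc 0 (64 * N ^ 3)) (cc N c) S M a R hM haM hR E hone).trans ?_
  refine mul_le_mul_of_nonneg_left ?_ (by positivity)
  have h3 : ((R * R : ℕ) : ℝ) ≤ L ^ (2 * B) := by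
    push_cast
    calc (R : ℝ) * R ≤ L ^ B * L ^ B := by gcongr
      _ = L ^ (2 * B) := by rw [← pow_add]; congr 1; ring
  calc ((R * R : ℕ) : ℝ) * E ≤ L ^ (2 * B) * ((N : ℝ) ^ 3 / L ^ (A + 2 * B)) := by
        rw [hE]
        gcongr
    _ = (N : ℝ) ^ 3 / L ^ A := by rw [pow_add]; field_simp

end Pool.Agent.CH
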