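import Pool.Agent.helper17.CH.SpecV

/-!
# MP_5628fe, row TJ: sums of geometric bounds over an interval
-/

set_option autoImplicit false

namespace Pool.Agent.CH

open Finset
open Pool.Agent.helper74.TG (ee gb)

theorem TJ_dist (β : ℝ) (h : |β| ≤ 1 / 2) : |β - round β| = |β| := by
  apply le_antisymm
  · have := round_le β 0
    simpa using this
  · by_cases h0 : round β = 0
    · rw [h0]; simp
    · have h1 : (1 : ℝ) ≤ |((round β : ℤ) : ℝ)| := by
        exact_mod_cast Int.one_le_abs h0
      have h2 : |((round β : ℤ) : ℝ)| - |β| ≤ |β - round β| := by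
        have := abs_sub_abs_le_abs_sub ((round β : ℤ) : ℝ) β
        rw [abs_sub_comm] at this
        exact this
      linarith

theorem TJ_le (X β : ℝ) (hX : 0 ≤ X) : gb X β ≤ X := by
  unfold gb
  split_ifs with h
  · exact le_refl _
  · rw [not_le] at h
    have h1 : 0 < 2 * |β - round β| := by
      by_contra hc
      rw [not_lt] at hc
      have := mul_nonpos_of_nonpos_of_nonneg hc hX
      linarith
    rw [div_le_iff₀ h1]
    linarith

theorem TJ_le2 (X β : ℝ) (h : 0 < |β - round β|) : gb X β ≤ 1 / (2 * |β - round β|) := by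
  unfold gb
  split_ifs with h1
  · rw [le_div_iff₀ (by positivity)]
    linarith
  · exact le_refl _

theorem TJ : TJ_stmt := by
  refine ⟨?_, ?_⟩
  · intro M α hM hα hαM
    set h : ℤ → ℝ := fun μ => if μ = 0 then (2 * M + 1 : ℝ) else 1 / (2 * (|α| * |(μ : ℝ)|))
      with hh
    have hα0 : 0 < |α| := abs_pos.2 hα
    have hterm : ∀ μ ∈ Icc (-(M : ℤ)) (M : ℤ), gb ((2 * M + 1 : ℕ) : ℝ) (α * μ) ≤ h μ := by
      intro μ hμ
      rw [Finset.mem_Icc] at hμ
      rw [hh]
      simp only
      split_ifs with h0
      · refine (TJ_le _ _ (Nat.cast_nonneg _)).trans ?_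
        push_cast
        exact le_refl _
      · have h1 : |(μ : ℝ)| ≤ M := by
          rw [abs_le]
          constructor
          · exact_mod_cast hμ.1
          · exact_mod_cast hμ.2
        have h2 : |α * μ| ≤ 1 / 2 := by
          rw [abs_mul]
          exact le_trans (mul_le_mul_of_nonneg_left h1 hα0.le) hαM
        have h3 := TJ_dist (α * μ) h2
        have hμ0 : (0 : ℝ) < |(μ : ℝ)| := abs_pos.2 (by exact_mod_cast h0)
        have h4 : 0 < |α * μ - round (α * μ)| := by
          rw [h3, abs_mul]
          positivity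
        refine (TJ_le2 _ _ h4).trans ?_
        rw [h3, abs_mul]
    have heven : h.Even := by
      intro μ
      rw [hh]
      simp only [neg_eq_zero, Int.cast_neg, abs_neg]
    refine (Finset.sum_le_sum hterm).trans ?_
    rw [Finset.sum_Icc_of_even_eq_range heven, Finset.sum_range_succ']
    have h0 : h 0 = 2 * M + 1 := by rw [hh]; simp
    have hs : ∑ k ∈ range M, h ((k + 1 : ℕ) : ℤ) = 1 / (2 * |α|) * (harmonic M : ℝ) := by
      unfold harmonic
      push_cast
      rw [Finset.mul_sum]
      apply Finset.sum_congr rfl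
      intro k _
      have hk : ((k : ℤ) + 1) ≠ 0 := by omega
      rw [hh]
      simp only [Int.cast_add, Int.cast_natCast, Int.cast_one]
      rw [if_neg (by exact_mod_cast hk)]
      have hk0 : (0 : ℝ) < (k : ℝ) + 1 := by positivity
      rw [abs_of_pos hk0]
      field_simp
    have hz : h ((0 : ℕ) : ℤ) = 2 * M + 1 := h0
    rw [hs, hz, h0]
    have hharm := harmonic_le_one_add_log M
    have e : (2 : ℕ) • (1 / (2 * |α|) * (harmonic M : ℝ) + (2 * (M : ℝ) + 1)) - (2 * M + 1) =
        2 * M + 1 + 1 / |α| * (harmonic M : ℝ) := by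
      rw [nsmul_eq_mul]
      push_cast
      field_simp
      ring
    rw [e]
    have hpos : 0 < 1 / |α| := by positivity
    have := mul_le_mul_of_nonneg_left hharm hpos.le
    linarith
  · intro M α
    have h1 : ∀ μ ∈ Icc (-(M : ℤ)) (M : ℤ), gb ((2 * M + 1 : ℕ) : ℝ) (α * μ) ≤ 2 * M + 1 := by
      intro μ _
      refine (TJ_le _ _ (Nat.cast_nonneg _)).trans ?_
      push_cast
      exact le_refl _
    refine (Finset.sum_le_sum h1).trans ?_
    rw [Finset.sum_const, Int.card_Icc, nsmul_eq_mul]
    have : (((M : ℤ) + 1 - -(M : ℤ)).toNat : ℝ) = 2 * M + 1 := by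
      have e : ((M : ℤ) + 1 - -(M : ℤ)).toNat = 2 * M + 1 := by omega
      rw [e]
      push_cast
      ring
    rw [this]
    exact le_of_eq (by ring)

end Pool.Agent.CH
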